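import Pool.Graph.R_seed8.H679R3.OR.Mon3

/-!
# Groups of units of one-relator inverse monoids and the maximal group image

Let `G = ⟨X | r⟩` be a one-relator group and `H` a finitely generated subgroup. There is a word `w`
over `X` and two more letters `p`, `z` such that the inverse monoid `M = Inv⟨X, p, z | w = 1⟩` has
maximal group image `G * F(p, z)` and the homomorphism `M → G` which is the identity on `X` and
kills `p` and `z` maps the group of units of `M` isomorphically onto `H`.
-/

set_option autoImplicit false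

namespace Pool.Agent.Results.MP_0d1b1a_al.MaximalGroupImage

open Pool.H679R3.OR Pool.H679R3.OR.Wd Pool.Agent.Helper707.IAlg Pool.Agent.Helper707.IModel

/-- `M` with the generators `ι` (letters `inl a`, formal inverses `inr a`) is the inverse monoid
`Inv⟨A | w = 1⟩`: it is an inverse monoid, generated by `ι`, in which `w = 1`, and it is universal
with these properties. -/
def IsInvPres {A : Type} (w : List (A ⊕ A)) (M : Type) [Monoid M] (ι : A ⊕ A → M) : Prop :=
  (∀ x : M, ∃! y : M, x * y * x = x ∧ y * x * y = y) ∧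
  (∀ b : A, ι (Sum.inl b) * ι (Sum.inr b) * ι (Sum.inl b) = ι (Sum.inl b) ∧
    ι (Sum.inr b) * ι (Sum.inl b) * ι (Sum.inr b) = ι (Sum.inr b)) ∧
  (w.map ι).prod = 1 ∧
  Submonoid.closure (Set.range ι) = ⊤ ∧
  ∀ (N : Type) [Monoid N], (∀ x : N, ∃! y : N, x * y * x = x ∧ y * x * y = y) →
    ∀ f : A ⊕ A → N,
      (∀ b : A, f (Sum.inl b) * f (Sum.inr b) * f (Sum.inl b) = f (Sum.inl b) ∧
        f (Sum.inr b) * f (Sum.inl b) * f (Sum.inr b) = f (Sum.inr b)) →
      (w.map f).prod = 1 → ∃ φ : M →* N, ∀ c, φ (ι c) = f c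

/-- the element of the free group given by a word -/
def val {A : Type} (w : List (A ⊕ A)) : FreeGroup A :=
  (w.map (Sum.elim FreeGroup.of fun a => (FreeGroup.of a)⁻¹)).prod

/-- Let `q : X → G` be the generators of `G = ⟨X | r⟩`, and `H` a subgroup of `G`. There is a word
`w` over `X ⊔ {p, z}` (here `{p, z}` is `Bool`) such that, for `M = Inv⟨X, p, z | w = 1⟩`,
`w` and `r` have the same normal closure in the free group on `X ⊔ {p, z}`, and the homomorphism
`γ : M → G` with `γ x = q x` and `γ p = γ z = 1` is injective on the units of `M`, and maps them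
onto `H`. -/
def Realizes {X : Type} (r : FreeGroup X) {G : Type} [Group G] (q : X → G)
    (H : Subgroup G) : Prop :=
  ∃ (w : List ((X ⊕ Bool) ⊕ (X ⊕ Bool))) (M : Type) (_ : Monoid M)
    (ι : (X ⊕ Bool) ⊕ (X ⊕ Bool) → M), IsInvPres w M ι ∧
    Subgroup.normalClosure {val w} = Subgroup.normalClosure {FreeGroup.map Sum.inl r} ∧
    ∃ γ : M →* G, (∀ x, γ (ι (Sum.inl (Sum.inl x))) = q x) ∧
      (∀ b, γ (ι (Sum.inl (Sum.inr b))) = 1) ∧
      Function.Injective (fun u : Mˣ => γ u) ∧ Set.range (fun u : Mˣ => γ u) = (H : Set G)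


section
variable {X : Type} (w : Wd X) {K : ℕ} {Us : List (List (X × Bool))}

/-- the homomorphism to the one-relator group which kills the two new letters -/
theorem exists_gamma : ∃ γ : w.Mo K Us →* w.P K, ∀ u, γ (ev (gi (w.rr K Us)) u) =
    ev (Inv.sx (Sum.elim (w.p K) (fun _ : Bool => (1 : w.P K)))) u :=
  Inv.exists_grp (Sum.elim (w.p K) (fun _ : Bool => (1 : w.P K)))
    (w.rx K) (w.rV K Us) (by
      rw [rx, ev_br, mk_pre, lift_W, w.W_p K]; group)

theorem units_canonical (hK : 0 < K) (hR : w.Root) (h0 : [] ∈ Us)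
    (hinv : ∀ u ∈ Us, FreeGroup.invRev u ∈ Us) :
    ∃ γ : w.Mo K Us →* w.P K,
      (∀ u, γ (ev (gi (w.rr K Us)) u) =
        ev (Inv.sx (Sum.elim (w.p K) (fun _ : Bool => (1 : w.P K)))) u) ∧
      Function.Injective (fun a : (w.Mo K Us)ˣ => γ a) ∧
      Set.range (fun a : (w.Mo K Us)ˣ => γ a) =
        (Subgroup.closure {g : w.P K | ∃ u ∈ Us,
          g = FreeGroup.lift (w.p K) (FreeGroup.mk u)} : Set (w.P K)) := by
  have hrd := w.rd K Us
  obtain ⟨γ, hγ0⟩ := exists_gamma w (K := K) (Us := Us)
  have hγ1 : ∀ b b' l, γ (ev (gi (w.rr K Us)) (br b b' l)) =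
      1 * FreeGroup.lift (w.p K) (FreeGroup.mk l) * (1)⁻¹ := by
    intro b b' l
    have := ev_br (w.p K) (fun _ => (1 : w.P K)) b b' l
    rw [← this]
    exact hγ0 _
  have hγu : ∀ u, γ (ev (gi (w.rr K Us)) (br true true u)) =
      FreeGroup.lift (w.p K) (FreeGroup.mk u) := by
    intro u
    rw [hγ1, one_mul, inv_one, mul_one]
  have hγus : ∀ us : List (List (X × Bool)),
      γ ((us.map (fun u => ev (gi (w.rr K Us)) (br true true u))).prod) =
        FreeGroup.lift (w.p K) (FreeGroup.mk us.flatten) := by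
    intro us
    induction us with
    | nil =>
      rw [List.map_nil, List.prod_nil, map_one]
      exact (map_one (FreeGroup.lift (w.p K))).symm
    | cons u us ih =>
      rw [List.map_cons, List.prod_cons, map_mul, ih, hγu, List.flatten_cons, ← FreeGroup.mul_mk,
        map_mul]
  let Φ : (w.Mo K Us)ˣ →* w.P K := γ.comp (Units.coeHom _)
  have hΦ : ∀ a : (w.Mo K Us)ˣ, Φ a = γ a.1 := fun a => rfl
  have hmem : ∀ a : (w.Mo K Us)ˣ, ∃ us : List (List (X × Bool)), (∀ u ∈ us, u ∈ Us) ∧
      a.1 = (us.map (fun u => ev (gi (w.rr K Us)) (br true true u))).prod := fun a =>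
    Wd.mem_TT w K Us (w.unit_mem K Us hR a.1 (a⁻¹).1 a.mul_inv a.inv_mul)
  have hinj : Function.Injective Φ := by
    rw [injective_iff_map_eq_one]
    intro a ha
    obtain ⟨us, h1, h2⟩ := hmem a
    rw [hΦ, h2, hγus] at ha
    have h3 := w.prod_eq hrd hK hR h0 (us := us) (vs := []) h1 (by simp) (by
      rw [ha]
      exact (map_one (FreeGroup.lift (w.p K))).symm)
    apply Units.ext
    rw [h2, h3]
    rfl
  have hrange : Φ.range = Subgroup.closure {g : w.P K | ∃ u ∈ Us,
      g = FreeGroup.lift (w.p K) (FreeGroup.mk u)} := by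
    apply le_antisymm
    · rintro _ ⟨a, rfl⟩
      obtain ⟨us, h1, h2⟩ := hmem a
      rw [hΦ, h2, hγus]
      clear h2
      induction us with
      | nil =>
        have : FreeGroup.lift (w.p K) (FreeGroup.mk ([] : List (List (X × Bool))).flatten) = 1 :=
          map_one (FreeGroup.lift (w.p K))
        rw [this]
        exact one_mem _
      | cons u us ih =>
        rw [List.flatten_cons, ← FreeGroup.mul_mk, map_mul]
        exact mul_mem (Subgroup.subset_closure ⟨u, h1 u List.mem_cons_self, rfl⟩)
          (ih (fun v hv => h1 v (List.mem_cons_of_mem _ hv)))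
    · rw [Subgroup.closure_le]
      rintro _ ⟨u, hu, rfl⟩
      have hmul : ∀ v, FreeGroup.mk ([v, FreeGroup.invRev v] : List (List (X × Bool))).flatten =
          1 := by
        intro v
        rw [List.flatten_cons, List.flatten_cons, List.flatten_nil, List.append_nil,
          ← FreeGroup.mul_mk, ← FreeGroup.inv_mk, mul_inv_cancel]
      have h1 := w.prod_eq hrd hK hR h0 (us := [u, FreeGroup.invRev u]) (vs := []) (by
        intro v hv
        simp only [List.mem_cons, List.not_mem_nil, or_false] at hv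
        rcases hv with rfl | rfl
        · exact hu
        · exact hinv _ hu) (by simp) (by
        rw [hmul, map_one]
        exact (map_one (FreeGroup.lift (w.p K))).symm)
      have h2 := w.prod_eq hrd hK hR h0 (us := [FreeGroup.invRev u, u]) (vs := []) (by
        intro v hv
        simp only [List.mem_cons, List.not_mem_nil, or_false] at hv
        rcases hv with rfl | rfl
        · exact hinv _ hu
        · exact hu) (by simp) (by
        have := hmul (FreeGroup.invRev u)
        rw [FreeGroup.invRev_invRev] at this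
        rw [this, map_one]
        exact (map_one (FreeGroup.lift (w.p K))).symm)
      simp only [List.map_cons, List.map_nil, List.prod_cons, List.prod_nil, mul_one] at h1 h2
      exact ⟨⟨_, _, h1, h2⟩, hγu u⟩
  refine ⟨γ, hγ0, hinj, ?_⟩
  rw [← hrange]
  rfl

end

theorem isInvPres {A : Type} (w : List (A ⊕ A)) : IsInvPres w (cg w).Quotient (gi w) := by
  classical
  have hf := isInvGen w
  refine ⟨Inv.existsUnique_inv hf (Inv.exists_word w), ?_, ev_rel w, ?_, ?_⟩
  · intro b
    constructor
    · have := hf.reg [Sum.inl b]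
      rw [nu_singleton, ev_singleton, ev_singleton] at this
      exact this
    · have := hf.reg [Sum.inr b]
      rw [nu_singleton, ev_singleton, ev_singleton] at this
      exact this
  · rw [eq_top_iff]
    rintro x -
    obtain ⟨u, rfl⟩ := Inv.exists_word w x
    induction u with
    | nil => exact one_mem _
    | cons c u ih =>
      rw [ev_cons]
      exact mul_mem (Submonoid.subset_closure ⟨c, rfl⟩) ih
  · intro N _ hN f hf' hw
    exact Inv.exists_hom f w hN hf' hw

/-- the value of the relator in a group -/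
theorem ev_rel_group {A G : Type} [Group G] (f : A → G) (x : List (A ⊕ A))
    (V : List (List (A ⊕ A))) : ev (Inv.sx f) (rel x V) = ev (Inv.sx f) x := by
  rw [rel, ev_append]
  have : ev (Inv.sx f) (V.flatMap fun v => v ++ nu v) = 1 := by
    induction V with
    | nil => rfl
    | cons v V ih =>
      rw [List.flatMap_cons, ev_append, ev_append, ih, Inv.ev_nu_sx]
      group
  rw [this, mul_one]

theorem val_rr {X : Type} (w : Wd X) (K : ℕ) (Us : List (List (X × Bool))) :
    val (w.rr K Us) = FreeGroup.of (Sum.inr false) *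
      FreeGroup.map Sum.inl (W FreeGroup.of w.ℓ (w.L * K)) *
      (FreeGroup.of (Sum.inr false))⁻¹ := by
  have h1 : val (w.rr K Us) = ev (Inv.sx (FreeGroup.of : X ⊕ Bool → FreeGroup (X ⊕ Bool)))
      (w.rr K Us) := rfl
  have h2 : (FreeGroup.of : X ⊕ Bool → FreeGroup (X ⊕ Bool)) =
      Sum.elim (fun x => FreeGroup.of (Sum.inl x)) (fun b => FreeGroup.of (Sum.inr b)) := by
    funext c
    cases c <;> rfl
  rw [h1, rr, ev_rel_group, h2, rx, ev_br, mk_pre]
  have h3 : FreeGroup.lift (fun x : X => (FreeGroup.of (Sum.inl x) : FreeGroup (X ⊕ Bool))) =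
      FreeGroup.map Sum.inl := by
    apply FreeGroup.ext_hom
    intro x
    simp
  rw [h3]
  rfl

theorem realizes_ne {X : Type} (r : FreeGroup X) (hr : r ≠ 1)
    (H : Subgroup (PresentedGroup ({r} : Set (FreeGroup X)))) (hH : H.FG) :
    Realizes r PresentedGroup.of H := by
  classical
  obtain ⟨w, K, g, hK, hR, hrw⟩ := exists_wd_root r hr
  have hnc : Subgroup.normalClosure ({r} : Set (FreeGroup X)) =
      Subgroup.normalClosure ({W FreeGroup.of w.ℓ (w.L * K)} : Set (FreeGroup X)) := by
    apply le_antisymm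
    · exact ncl_le hrw
    · refine ncl_le (g := g⁻¹) ?_
      rw [hrw]; group
  let e : PresentedGroup ({r} : Set (FreeGroup X)) ≃* w.P K :=
    QuotientGroup.quotientMulEquivOfEq hnc
  have he : ∀ x, e (PresentedGroup.of x) = w.p K x := fun x => rfl
  obtain ⟨S, hS⟩ := hH
  have hword : ∀ s : w.P K, ∃ u, FreeGroup.lift (w.p K) (FreeGroup.mk u) = s := by
    intro s
    obtain ⟨c, rfl⟩ := QuotientGroup.mk_surjective s
    obtain ⟨u, rfl⟩ : ∃ l, FreeGroup.mk l = c := Quot.exists_rep c
    exact ⟨u, (w.mk_eq_lift K _).symm⟩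
  choose wd hwd using hword
  let U0 : List (List (X × Bool)) := S.toList.map (fun s => wd (e s))
  let Us : List (List (X × Bool)) := [] :: (U0 ++ U0.map FreeGroup.invRev)
  have hUs : ∀ u, u ∈ Us ↔ u = [] ∨ u ∈ U0 ∨ ∃ v ∈ U0, FreeGroup.invRev v = u := by
    intro u
    simp [Us]
  obtain ⟨γ, hγ0, hinj, hran⟩ := units_canonical w (K := K) (Us := Us) hK hR
    ((hUs _).2 (Or.inl rfl)) (by
    intro u hu
    rw [hUs] at hu ⊢
    rcases hu with rfl | hu | ⟨v, hv, rfl⟩
    · left; rfl
    · right; right; exact ⟨u, hu, rfl⟩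
    · right; left
      rw [FreeGroup.invRev_invRev]
      exact hv)
  have hcl : Subgroup.closure {g : w.P K | ∃ u ∈ Us,
      g = FreeGroup.lift (w.p K) (FreeGroup.mk u)} = H.map e.toMonoidHom := by
    have hU1 : ∀ s ∈ S, e s ∈ H.map e.toMonoidHom := fun s hs =>
      ⟨s, hS ▸ Subgroup.subset_closure hs, rfl⟩
    apply le_antisymm
    · rw [Subgroup.closure_le]
      rintro _ ⟨u, hu, rfl⟩
      have hU0 : ∀ u ∈ U0, FreeGroup.lift (w.p K) (FreeGroup.mk u) ∈ H.map e.toMonoidHom := by
        intro u hu
        obtain ⟨s, hs, rfl⟩ := List.mem_map.1 hu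
        rw [hwd]
        exact hU1 s (Finset.mem_toList.1 hs)
      rcases (hUs u).1 hu with rfl | hu | ⟨v, hv, rfl⟩
      · have : FreeGroup.lift (w.p K) (FreeGroup.mk ([] : List (X × Bool))) = 1 :=
          map_one (FreeGroup.lift (w.p K))
        rw [this]
        exact one_mem _
      · exact hU0 u hu
      · rw [← FreeGroup.inv_mk, map_inv]
        exact inv_mem (hU0 v hv)
    · rw [← hS, MonoidHom.map_closure, Subgroup.closure_le]
      rintro _ ⟨s, hs, rfl⟩
      apply Subgroup.subset_closure
      refine ⟨wd (e s), (hUs _).2 (Or.inr (Or.inl (List.mem_map.2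
        ⟨s, Finset.mem_toList.2 hs, rfl⟩))), ?_⟩
      rw [hwd]
      rfl
  refine ⟨w.rr K Us, w.Mo K Us, inferInstance, gi (w.rr K Us), isInvPres _, ?_,
    e.symm.toMonoidHom.comp γ, ?_, ?_, ?_, ?_⟩
  · rw [val_rr]
    have hmap : FreeGroup.map (Sum.inl : X → X ⊕ Bool) r =
        FreeGroup.map Sum.inl g * FreeGroup.map Sum.inl (W FreeGroup.of w.ℓ (w.L * K)) *
          (FreeGroup.map Sum.inl g)⁻¹ := by
      conv_lhs => rw [hrw]
      rw [map_mul, map_mul, map_inv]
    apply le_antisymm
    · refine ncl_le (g := FreeGroup.of (Sum.inr false) * (FreeGroup.map Sum.inl g)⁻¹) ?_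
      rw [hmap]; group
    · refine ncl_le (g := FreeGroup.map Sum.inl g * (FreeGroup.of (Sum.inr false))⁻¹) ?_
      rw [hmap]; group
  · intro x
    have h := hγ0 [Sum.inl (Sum.inl x)]
    rw [ev_singleton, ev_singleton] at h
    show e.symm (γ _) = _
    rw [h, MulEquiv.symm_apply_eq, he]
    rfl
  · intro b
    have h := hγ0 [Sum.inl (Sum.inr b)]
    rw [ev_singleton, ev_singleton] at h
    show e.symm (γ _) = _
    rw [h]
    exact map_one e.symm
  · exact e.symm.injective.comp hinj
  · have : (fun u : (w.Mo K Us)ˣ => (e.symm.toMonoidHom.comp γ) u) =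
        e.symm ∘ fun u : (w.Mo K Us)ˣ => γ u := rfl
    rw [this, Set.range_comp, hran, hcl]
    ext x
    simp only [Set.mem_image, SetLike.mem_coe, Subgroup.mem_map]
    constructor
    · rintro ⟨_, ⟨y, hy, rfl⟩, rfl⟩
      simpa using hy
    · intro hx
      exact ⟨e x, ⟨x, hx, rfl⟩, by simp⟩

/-- Let `H` be a finitely generated subgroup of the one-relator group `G = ⟨X | r⟩`, `r ≠ 1` (`X`
any set). There is a word `w` over `X` and two more letters `p, z` such that, for the inverse monoid
`M = Inv⟨X, p, z | w = 1⟩`, the maximal group image `Gp⟨X, p, z | w = 1⟩` is `Gp⟨X, p, z | r = 1⟩`,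
that is `G * F(p, z)`, and the homomorphism `M → G` with `x ↦ x`, `p, z ↦ 1` maps the group of units
of `M` isomorphically onto `H`. The finitely generated subgroups of the free groups `F(X)` arise in
the same way from the presentation `⟨X, t | t⟩`. -/
theorem result :
    (∀ (X : Type) (r : FreeGroup X), r ≠ 1 →
      ∀ H : Subgroup (PresentedGroup ({r} : Set (FreeGroup X))), H.FG →
        Realizes r PresentedGroup.of H) ∧
    ∀ (X : Type) (H : Subgroup (FreeGroup X)), H.FG →
      Realizes (X := Option X) (FreeGroup.of none) (fun o => o.elim 1 FreeGroup.of) H := by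
  classical
  refine ⟨fun X r hr H hH => realizes_ne r hr H hH, fun X H hH => ?_⟩
  have h2 : ∀ r ∈ ({FreeGroup.of none} : Set (FreeGroup (Option X))), FreeGroup.lift
      (fun o : Option X => (o.elim 1 FreeGroup.of : FreeGroup X)) r = 1 := by
    intro r hr
    rw [Set.mem_singleton_iff] at hr
    rw [hr, FreeGroup.lift_apply_of]
    rfl
  let e : PresentedGroup ({FreeGroup.of none} : Set (FreeGroup (Option X))) ≃* FreeGroup X :=
    MonoidHom.toMulEquiv (PresentedGroup.toGroup h2)
      (FreeGroup.lift fun i => (PresentedGroup.of (some i) :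
        PresentedGroup ({FreeGroup.of none} : Set (FreeGroup (Option X)))))
      (by
        apply PresentedGroup.ext
        intro o
        show FreeGroup.lift _ (PresentedGroup.toGroup h2 (PresentedGroup.of o)) = _
        rw [PresentedGroup.toGroup.of]
        cases o with
        | none =>
          have : (PresentedGroup.of none : PresentedGroup
              ({FreeGroup.of none} : Set (FreeGroup (Option X)))) = 1 :=
            PresentedGroup.one_of_mem rfl
          show FreeGroup.lift _ (1 : FreeGroup X) = _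
          rw [map_one]
          exact this.symm
        | some i =>
          show FreeGroup.lift _ (FreeGroup.of i) = _
          rw [FreeGroup.lift_apply_of]
          rfl)
      (by
        apply FreeGroup.ext_hom
        intro i
        rw [MonoidHom.comp_apply, FreeGroup.lift_apply_of, PresentedGroup.toGroup.of]
        rfl)
  have he : ∀ o, e (PresentedGroup.of o) = o.elim 1 FreeGroup.of := fun o =>
    PresentedGroup.toGroup.of h2
  have hfg : (H.map e.symm.toMonoidHom).FG := by
    obtain ⟨S, hS⟩ := hH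
    refine ⟨S.image e.symm, ?_⟩
    rw [Finset.coe_image, ← hS, MonoidHom.map_closure]
    rfl
  obtain ⟨w, M, i, ι, h1, h3, γ, h4, h5, h6, h7⟩ :=
    realizes_ne (FreeGroup.of (none : Option X)) (FreeGroup.of_ne_one _) _ hfg
  refine ⟨w, M, i, ι, h1, h3, e.toMonoidHom.comp γ, fun x => ?_, fun b => ?_,
    e.injective.comp h6, ?_⟩
  · show e (γ _) = _
    rw [h4, he]
  · show e (γ _) = _
    rw [h5, map_one]
  · have : (fun u : Mˣ => (e.toMonoidHom.comp γ) u) = e ∘ fun u : Mˣ => γ u := rfl
    rw [this, Set.range_comp, h7]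
    ext x
    simp only [Set.mem_image, SetLike.mem_coe, Subgroup.mem_map]
    constructor
    · rintro ⟨_, ⟨y, hy, rfl⟩, rfl⟩
      simpa using hy
    · intro hx
      exact ⟨e.symm x, ⟨x, hx, rfl⟩, by simp⟩

end Pool.Agent.Results.MP_0d1b1a_al.MaximalGroupImage
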